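import Pool.Agent.Y701.CB.Fib

/-!
Only finitely many places ramify in a finite separable extension of function fields.
-/

set_option autoImplicit false
set_option linter.all false
set_option maxHeartbeats 4000000

open Module FF Polynomial

namespace Pool.Agent.Y701.R1

open Pool.Agent.W343.BSD Pool.Agent.H123R3.ZT Pool.Agent.W313.Hyp

section

variable {k K L : Type} [Field k] [Finite k] [Field K] [Algebra k K] [FF.IsFF k K]
  [Field L] [Algebra k L] [Algebra K L] [IsScalarTower k K L] [FF.IsFF k L]
  [FiniteDimensional K L] [Algebra.IsSeparable K L]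

omit [IsScalarTower k K L] [Algebra k L] [FF.IsFF k L] [Algebra K L] [Field L]
  [FiniteDimensional K L] [Algebra.IsSeparable K L] in
/-- the coefficients of a polynomial are regular at almost all places -/
theorem coeff_reg (p : K[X]) : {v : Place k K | ¬ ∀ n, v.Reg (p.coeff n)}.Finite := by
  have h1 : (⋃ n ∈ p.support, {v : Place k K | v.ord (p.coeff n) ≠ 0}).Finite :=
    Set.Finite.biUnion p.support.finite_toSet fun n _ =>
      H525R3.FFp.finite_support (k := k) (p.coeff n)
  refine h1.subset ?_
  intro v hv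
  have hv' : ¬ ∀ n, v.Reg (p.coeff n) := hv
  push Not at hv'
  obtain ⟨n, hn⟩ := hv'
  simp only [Set.mem_iUnion]
  have h0 : p.coeff n ≠ 0 := fun h => hn (Or.inl h)
  refine ⟨n, mem_support_iff.2 h0, fun h => hn (Or.inr ?_)⟩
  rw [h]

omit [IsScalarTower k K L] [Algebra k L] [FF.IsFF k L] [Algebra K L] [Field L]
  [FiniteDimensional K L] [Algebra.IsSeparable K L] in
theorem lifts_of_reg (v : Place k K) (p : K[X]) (h : ∀ n, v.Reg (p.coeff n)) :
    ∃ F : v.O[X], F.map v.O.subtype = p := by
  have h2 : p ∈ Polynomial.lifts v.O.subtype := by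
    rw [lifts_iff_coeff_lifts]
    intro n
    exact ⟨⟨p.coeff n, h n⟩, rfl⟩
  exact (mem_lifts p).1 h2

theorem ram_finite : {v : Place k K | ∃ (w : Place k L) (e : ℕ), Over w v e ∧ e ≠ 1}.Finite := by
  classical
  obtain ⟨θ, hθ⟩ := Field.exists_primitive_element K L
  set f := minpoly K θ with hf
  have hint : IsIntegral K θ := Algebra.IsIntegral.isIntegral θ
  have hsepf : f.Separable := Algebra.IsSeparable.isSeparable K θ
  have hm : f.Monic := minpoly.monic hint
  have hFam : IsFam (ι := Unit) (L := fun _ => L) f (fun _ => θ) :=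
    ⟨hm, hsepf, fun _ => hθ, by simp [hf]⟩
  obtain ⟨A, B, hAB⟩ := hsepf
  refine (((coeff_reg (k := k) f).union (coeff_reg (k := k) A)).union
    (coeff_reg (k := k) B)).subset ?_
  rintro v ⟨w, e, hov, he⟩
  by_contra hcon
  simp only [Set.mem_union, Set.mem_setOf_eq, not_or, not_not] at hcon
  obtain ⟨⟨hf1, hA1⟩, hB1⟩ := hcon
  obtain ⟨F, hF⟩ := lifts_of_reg v f hf1
  obtain ⟨A', hA'⟩ := lifts_of_reg v A hA1
  obtain ⟨B', hB'⟩ := lifts_of_reg v B hB1
  have hFm : F.Monic := monic_of_injective Subtype.val_injective (by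
    have := hm
    rw [← hF] at this
    exact this)
  have hsep : (F.map v.resHom).Separable := by
    have h1 : A' * F + B' * derivative F = 1 := by
      apply Polynomial.map_injective v.O.subtype Subtype.val_injective
      rw [Polynomial.map_add, Polynomial.map_mul, Polynomial.map_mul, hA', hB', hF,
        ← derivative_map, hF, hAB, Polynomial.map_one]
    have h2 := congrArg (Polynomial.map v.resHom) h1
    rw [Polynomial.map_add, Polynomial.map_mul, Polynomial.map_mul, ← derivative_map,
      Polynomial.map_one] at h2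
    exact ⟨_, _, h2⟩
  obtain ⟨S, e', d, D⟩ := exists_fiberData (k := k) (K := K) (ι := Unit) (L := fun _ => L)
    (fun _ => inferInstance) (fun _ => inferInstance) v
  have hkey := kd_prod hFam v hF hsep.squarefree D (fun n => Multiplicative.ofAdd n)
  have hsumdeg : ∑ w ∈ S (), w.deg = v.deg * f.natDegree := by
    have h3 := congrArg Multiplicative.toAdd hkey
    simp only [Finset.univ_unique, PUnit.default_eq_unit, Finset.prod_singleton] at h3
    rw [toAdd_prod, toAdd_prod] at h3
    simp only [toAdd_ofAdd] at h3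
    have hfinRF : Finite v.RF := Module.finite_of_finite k
    rw [h3, ← Finset.mul_sum, sum_facs (hFm.map _) hsep.squarefree, hFm.natDegree_map]
    congr 1
    rw [← hF, hFm.natDegree_map]
  have hfr : finrank K L = f.natDegree := by
    have := hFam.sum
    simpa using this
  have hv := deg_pos' v
  have hsum := D.sum ()
  have hd : ∑ w ∈ S (), d ⟨(), w⟩ = finrank K L := by
    apply Nat.eq_of_mul_eq_mul_left hv
    rw [Finset.mul_sum, hfr, ← hsumdeg]
    exact Finset.sum_congr rfl fun w hw => (D.deg () w hw).symm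
  have he' : ∀ w ∈ S (), e' ⟨(), w⟩ = 1 := by
    have hle : ∀ w ∈ S (), d ⟨(), w⟩ ≤ e' ⟨(), w⟩ * d ⟨(), w⟩ := fun w hw =>
      Nat.le_mul_of_pos_left _ (D.isOver () w hw).1
    have h1 := (Finset.sum_eq_sum_iff_of_le hle).1 (by rw [hd, hsum])
    intro w hw
    have h2 := h1 w hw
    have h3 := D.pos () w hw
    have h4 : d ⟨(), w⟩ * 1 = d ⟨(), w⟩ * e' ⟨(), w⟩ := by rw [mul_one, mul_comm]; exact h2
    exact (Nat.eq_of_mul_eq_mul_left h3 h4).symm
  have hw := D.mem () w e hov
  apply he
  rw [over_e_unique hov (D.isOver () w hw), he' w hw]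

end

end Pool.Agent.Y701.R1
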