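import Pool.Agent.Y701.CB.Mult
import Pool.Agent.Y701.R1.Ram

/-!
The order of vanishing in Galois extensions of prime power degree of a constant extension, for a
fixed prime.
-/

set_option autoImplicit false
set_option linter.all false
set_option maxHeartbeats 4000000

open Module FF Polynomial

namespace Pool.Agent.Y701.R1

open Pool.Agent.W343.BSD Pool.Agent.H123R3.ZT Pool.Agent.Y701.CB

/-- The place `w` of `L` lies over the place `v` of `K` with ramification index `e`; the fields of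
constants `k` and `k'` may be different. -/
def OverC {k K k' L : Type} [Field k] [Field K] [Algebra k K] [Field k'] [Field L] [Algebra k' L]
    [Algebra K L] (w : Place k' L) (v : Place k K) (e : ℕ) : Prop :=
  0 < e ∧ ∀ f : K, w.ord (algebraMap K L f) = e * v.ord f

section units

variable {l : ℕ} [hl : Fact l.Prime]

theorem exists_prim {r : ℕ} (hr : r ∣ l - 1) : ∃ ζ : ZMod l, IsPrimitiveRoot ζ r := by
  obtain ⟨g, hg⟩ := IsCyclic.exists_generator (α := (ZMod l)ˣ)
  have h1 : orderOf g = l - 1 := by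
    rw [orderOf_eq_card_of_forall_mem_zpowers hg, Nat.card_eq_fintype_card, ZMod.card_units]
  obtain ⟨c, hc⟩ := hr
  have hl1 : 0 < l - 1 := by have := hl.out.two_le; omega
  have h2 : IsPrimitiveRoot g (l - 1) := by rw [← h1]; exact IsPrimitiveRoot.orderOf g
  have h3 : IsPrimitiveRoot (g ^ c) r := h2.pow hl1 (by rw [hc]; ring)
  exact ⟨((g ^ c : (ZMod l)ˣ) : ZMod l), h3.map_of_injective (f := Units.coeHom (ZMod l))
    Units.val_injective⟩

theorem isSquare_of_pow {x : ZMod l} (hl2 : l ≠ 2) {r : ℕ} (hr : r ∣ (l - 1) / 2) (hx : x ^ r = 1) :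
    IsSquare x := by
  have hr0 : r ≠ 0 := by
    rintro rfl
    rw [zero_dvd_iff] at hr
    have h1 := hl.out.two_le
    have h2 := hl.out.eq_two_or_odd
    omega
  have hx0 : x ≠ 0 := by
    rintro rfl
    rw [zero_pow hr0] at hx
    exact zero_ne_one hx
  rw [ZMod.euler_criterion l hx0]
  have h3 : l / 2 = (l - 1) / 2 := by
    have h2 := hl.out.eq_two_or_odd
    omega
  obtain ⟨c, hc⟩ := hr
  rw [h3, hc, pow_mul, hx, one_pow]

end units

section fixed

variable {k K k' K' k'' L : Type} [Field k] [Finite k] [Field K] [Algebra k K] [FF.IsFF k K]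
  [Field k'] [Finite k'] [Field K'] [Algebra k' K'] [Algebra k k'] [Algebra k K'] [Algebra K K']
  [IsScalarTower k K K'] [IsScalarTower k k' K'] [FF.IsFF k' K'] [FiniteDimensional K K']
  [Field k''] [Finite k''] [Field L] [Algebra k'' L] [Algebra k' k''] [Algebra k' L]
  [Algebra K' L] [IsScalarTower k' K' L] [IsScalarTower k' k'' L] [FF.IsFF k'' L]
  [FiniteDimensional K' L] [IsGalois K' L]

/-- the multiplicity of the central zero over the constant extension -/
theorem mult_const (h6 : (6 : k) ≠ 0)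
    (hconst : ∀ a : K, IsAlgebraic k a → a ∈ (algebraMap k K).range)
    (hfr : finrank K K' = finrank k k') {a b : K} (hΔ : 4 * a ^ 3 + 27 * b ^ 2 ≠ 0)
    {ρ : ℕ} {G : ℤ[X]} (hP : Lfun k a b =
      (((1 - C (Nat.card k : ℤ) * X) ^ ρ * G : ℤ[X]) : PowerSeries ℤ))
    {l : ℕ} [hl : Fact l.Prime] (hlk : (l : k) ≠ 0) {ζ : ZMod l}
    (hζ : IsPrimitiveRoot ζ (finrank k k'))
    (hG : ∀ i < finrank k k',
      (G.map (Int.castRingHom (ZMod l))).eval (ζ ^ i * ((Nat.card k : ℕ) : ZMod l)⁻¹) ≠ 0)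
    {P' : ℤ[X]}
    (hP' : Lfun k' (algebraMap K K' a) (algebraMap K K' b) = (P' : PowerSeries ℤ)) :
    (P'.map (Int.castRingHom (ZMod l))).rootMultiplicity ((Nat.card k' : ℕ) : ZMod l)⁻¹ = ρ := by
  classical
  have hFF' : FF.IsFF k K' := isFF_of_finite (K := K)
  have : Module.Finite k k' := Module.Finite.of_finite
  have hr0 : 0 < finrank k k' := finrank_pos
  have hq0 := card_ne_zero_mod (k := k) hlk
  rw [base_mult (k := k) (k' := k') (K := K) (K' := K') h6 hconst hfr hΔ hlk hζ hP hP']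
  have hmap : (((1 - C (Nat.card k : ℤ) * X) ^ ρ * G : ℤ[X]).map (Int.castRingHom (ZMod l))) =
      (1 - C ((Nat.card k : ℕ) : ZMod l) * X) ^ ρ * G.map (Int.castRingHom (ZMod l)) := by
    rw [Polynomial.map_mul, Polynomial.map_pow, Polynomial.map_sub, Polynomial.map_one,
      Polynomial.map_mul, Polynomial.map_C, Polynomial.map_X]
    have : (Int.castRingHom (ZMod l)) (Nat.card k : ℤ) = ((Nat.card k : ℕ) : ZMod l) := by simp
    rw [this]
  rw [hmap]
  have hlin : (1 - C ((Nat.card k : ℕ) : ZMod l) * X : (ZMod l)[X]) ≠ 0 := by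
    intro h
    have h1 := congrArg (Polynomial.eval 0) h
    simp at h1
  have hG0 : G.map (Int.castRingHom (ZMod l)) ≠ 0 := by
    intro h
    apply hG 0 hr0
    rw [h, eval_zero]
  have hterm : ∀ i ∈ Finset.range (finrank k k'),
      ((1 - C ((Nat.card k : ℕ) : ZMod l) * X) ^ ρ * G.map (Int.castRingHom (ZMod l)) :
        (ZMod l)[X]).rootMultiplicity (ζ ^ i * ((Nat.card k : ℕ) : ZMod l)⁻¹) =
      if i = 0 then ρ else 0 := by
    intro i hi
    have hi' := Finset.mem_range.1 hi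
    rw [rm_mul _ (pow_ne_zero _ hlin) hG0, rm_pow _ hlin, rm_eq_zero (hG i hi'), add_zero]
    split_ifs with h0
    · rw [h0, pow_zero, one_mul, rm_linear hq0, mul_one]
    · rw [rm_eq_zero, mul_zero]
      rw [eval_sub, eval_one, eval_mul, eval_C, eval_X]
      intro h1
      have h2 : ζ ^ i = 1 := by
        have h3 : ((Nat.card k : ℕ) : ZMod l) * (ζ ^ i * ((Nat.card k : ℕ) : ZMod l)⁻¹) = ζ ^ i := by
          field_simp
        rw [h3] at h1
        exact (sub_eq_zero.1 h1).symm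
      exact h0 (by
        have h3 := hζ.pow_eq_one_iff_dvd i |>.1 h2
        exact Nat.eq_zero_of_dvd_of_lt h3 hi')
  rw [Finset.sum_congr rfl hterm, Finset.sum_ite_eq', if_pos (Finset.mem_range.2 hr0)]

/-- The bound for a fixed prime. -/
theorem bound_fixed (h6 : (6 : k) ≠ 0)
    (hconst : ∀ a : K, IsAlgebraic k a → a ∈ (algebraMap k K).range)
    (hconst' : ∀ a : K', IsAlgebraic k' a → a ∈ (algebraMap k' K').range)
    (hfr : finrank K K' = finrank k k') {a b : K} (hΔ : 4 * a ^ 3 + 27 * b ^ 2 ≠ 0)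
    {ρ : ℕ} {G : ℤ[X]} (hP : Lfun k a b =
      (((1 - C (Nat.card k : ℤ) * X) ^ ρ * G : ℤ[X]) : PowerSeries ℤ))
    {l s : ℕ} [hl : Fact l.Prime] (hlk : (l : k) ≠ 0) {ζ : ZMod l}
    (hζ : IsPrimitiveRoot ζ (finrank k k'))
    (hG : ∀ i < finrank k k',
      (G.map (Int.castRingHom (ZMod l))).eval (ζ ^ i * ((Nat.card k : ℕ) : ZMod l)⁻¹) ≠ 0)
    (S : Set (Place k K))
    (hS : ∀ v ∈ S, ∀ i < finrank k k',
      (locML l v a b).eval (ζ ^ i * ((Nat.card k : ℕ) : ZMod l)⁻¹) ≠ 0)
    (hn : finrank K' L = l ^ s)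
    (hram : ∀ (v' : Place k' K') (w : Place k'' L) (e : ℕ), OverC w v' e → e ≠ 1 →
      (∃ v ∈ S, ∃ e' : ℕ, OverC v' v e') ∨
      (locML l v' (algebraMap K K' a) (algebraMap K K' b)).eval
        ((Nat.card k' : ℕ) : ZMod l)⁻¹ ≠ 0)
    (m : ℕ) (G' : ℤ[X])
    (hG' : Lfun k'' (algebraMap K' L (algebraMap K K' a)) (algebraMap K' L (algebraMap K K' b)) =
      (((1 - C (Nat.card k'' : ℤ) * X) ^ m * G' : ℤ[X]) : PowerSeries ℤ)) :
    finrank k' k'' * m ≤ finrank K' L * ρ := by
  classical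
  have hFF' : FF.IsFF k K' := isFF_of_finite (K := K)
  have hFFL : FF.IsFF k' L := isFF_of_finite (K := K')
  have hΔ' : 4 * algebraMap K K' a ^ 3 + 27 * algebraMap K K' b ^ 2 ≠ 0 := by
    have e1 : 4 * algebraMap K K' a ^ 3 + 27 * algebraMap K K' b ^ 2 =
        algebraMap K K' (4 * a ^ 3 + 27 * b ^ 2) := by
      rw [map_add, map_mul, map_mul, map_pow, map_pow, map_ofNat, map_ofNat]
    rw [e1]
    exact (_root_.map_ne_zero _).2 hΔ
  obtain ⟨P', hP'⟩ := base_poly (k := k) (k' := k') (K := K) (K' := K') h6 hconst hfr hΔ hP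
  have hmult := mult_const (k := k) (k' := k') (K := K) (K' := K') h6 hconst hfr hΔ hP hlk hζ hG hP'
  have h6' : (6 : k') ≠ 0 := by
    have : (6 : k') = algebraMap k k' 6 := by rw [map_ofNat]
    rw [this]
    exact (_root_.map_ne_zero _).2 h6
  have hlk' : (l : k') ≠ 0 := by
    rw [← map_natCast (algebraMap k k')]
    exact (_root_.map_ne_zero _).2 hlk
  -- the ramification indices
  have hD := fun v : Place k' K' => exists_galoisFiber (L := L) v
  choose SS e f D using hD
  have hramfin := ram_finite (k := k') (K := K') (L := L)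
  set B : Finset (Place k' K') := hramfin.toFinset with hB
  have hmemB : ∀ v' : Place k' K', v' ∈ B ↔ ∃ (w : Place k' L) (e : ℕ), Over w v' e ∧ e ≠ 1 := by
    intro v'
    rw [hB, Set.Finite.mem_toFinset]
    rfl
  have hB1 : ∀ v' : Place k' K', v' ∉ B → e v' = 1 := by
    intro v' hv'
    by_contra hne
    apply hv'
    rw [hmemB]
    obtain ⟨w, hw⟩ := (D v').nonempty
    exact ⟨w, e v', (D v').isOver w hw, hne⟩
  have hB2 : ∀ v' ∈ B, (locML l v' (algebraMap K K' a) (algebraMap K K' b)).rootMultiplicity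
      ((Nat.card k' : ℕ) : ZMod l)⁻¹ = 0 := by
    intro v' hv'
    rw [hmemB] at hv'
    obtain ⟨w, e1, hov, he1⟩ := hv'
    rcases hram v' (upPlace (k' := k'') w) e1 ⟨hov.1, hov.2⟩ he1 with ⟨v, hvS, e2, hv⟩ | h
    · have hv2 : Over (downPlace (k := k) v') v e2 := ⟨hv.1, hv.2⟩
      exact rm_eq_zero (base_loc (k := k) (k' := k') (K := K) (K' := K') h6 hconst hfr hΔ hζ v'
        hv2 (hS v hvS))
    · exact rm_eq_zero h
  have hfin := kida_final (k := k') (K := K') (k' := k'') (L := L) h6' hconst' hlk' hn hΔ'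
    (e := e) (fun v w n h => over_e_unique h ((D v).isOver w ((D v).mem w n h))) B hB1 hP' m G' hG'
  rw [hmult, Finset.sum_eq_zero (fun v' hv' => by rw [hB2 v' hv', mul_zero]), add_zero] at hfin
  exact hfin

end fixed

end Pool.Agent.Y701.R1
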